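import Pool.Agent.X198.NS.Ends

open Set Filter Topology

namespace X198PR

open X198NS

universe u v w

variable {T : Type u} [PartialOrder T]

theorem isOpen_mem (t : T) : IsOpen {R : TreeRay T | t ∈ R.carrier} := by
  refine isOpen_induced_iff.2 ⟨{f | f t = true}, ?_, ?_⟩
  · have h : Continuous (fun f : T → Bool => f t) := continuous_apply t
    exact (isOpen_discrete ({true} : Set Bool)).preimage h
  · ext R
    simp [TreeRay.code]

theorem TreeRay.ext' {R R' : TreeRay T} (h : ∀ x, x ∈ R.carrier ↔ x ∈ R'.carrier) : R = R' := by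
  cases R
  cases R'
  simp only [TreeRay.mk.injEq]
  ext x
  exact h x

/-- A tree that is a Baire poset has a ray space `X` such that no product of `X` with a space
that contains a nontrivial convergent sequence has a continuous injection in a ray space. -/
theorem core (hT : IsOrderTree T)
    (hB : ∀ D : ℕ → Set T, (∀ n, ∀ c, ∃ d ∈ D n, c ≤ d) →
      (∀ n, ∀ c ∈ D n, ∀ d, c ≤ d → d ∈ D n) → ∃ c, ∀ n, c ∈ D n)
    (hbase : ∀ O : Set (NonemptyRay T), IsOpen O → O.Nonempty →
      ∃ d : T, ∀ R : NonemptyRay T, d ∈ R.1.carrier → R ∈ O)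
    (htwo : ∀ d : T, ∃ R R' : NonemptyRay T, R ≠ R' ∧ d ∈ R.1.carrier ∧ d ∈ R'.1.carrier)
    {Y : Type w} [TopologicalSpace Y] (y : ℕ → Y) (z : Y) (hy : Tendsto y atTop (𝓝 z))
    (hne : ∀ n, y n ≠ z)
    {P : Type v} [PartialOrder P] (hP : IsOrderTree P) (φ : NonemptyRay T × Y → TreeRay P)
    (hc : Continuous φ) (hi : Function.Injective φ) : False := by
  classical
  -- the clopen sets
  have hopen : ∀ (w : Y) (u : P), IsOpen {R : NonemptyRay T | u ∈ (φ (R, w)).carrier} := by
    intro w u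
    exact (isOpen_mem u).preimage (hc.comp (Continuous.prodMk_left w))
  have hclosed : ∀ (w : Y) (u : P), IsOpen {R : NonemptyRay T | u ∉ (φ (R, w)).carrier} := by
    intro w u
    exact (isOpen_notMem u).preimage (hc.comp (Continuous.prodMk_left w))
  have hO : ∀ (n : ℕ) (u : P), IsOpen {R : NonemptyRay T | u ∈ (φ (R, z)).carrier ∧
      u ∉ (φ (R, y n)).carrier} := fun n u => (hopen z u).inter (hclosed (y n) u)
  -- refining a node
  have href : ∀ (c : T) (O : Set (NonemptyRay T)), IsOpen O →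
      (∃ R : NonemptyRay T, R ∈ O ∧ c ∈ R.1.carrier) →
      ∃ d, c ≤ d ∧ ∀ R : NonemptyRay T, d ∈ R.1.carrier → R ∈ O := by
    rintro c O hO' ⟨R, hR, hcR⟩
    have hcopen : IsOpen {R : NonemptyRay T | c ∈ R.1.carrier} :=
      (isOpen_mem c).preimage continuous_subtype_val
    obtain ⟨d, hd⟩ := hbase (O ∩ {R : NonemptyRay T | c ∈ R.1.carrier}) (hO'.inter hcopen)
      ⟨R, hR, hcR⟩
    obtain ⟨R1, _, _, hd1, _⟩ := htwo d
    have hc1 : c ∈ R1.1.carrier := (hd R1 hd1).2
    rcases R1.1.chain.total hc1 hd1 with h | h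
    · exact ⟨d, h, fun R' hR' => (hd R' hR').1⟩
    · exact ⟨c, le_refl c, fun R' hR' => (hd R' (R'.1.down c hR' d h)).1⟩
  -- the dense open sets
  let D : ℕ → Set T := fun n => {c | (∃ u : P, ∀ R : NonemptyRay T, c ∈ R.1.carrier →
      u ∈ (φ (R, z)).carrier ∧ u ∉ (φ (R, y n)).carrier) ∨
    (∀ u : P, ∀ R : NonemptyRay T, c ∈ R.1.carrier → u ∈ (φ (R, z)).carrier →
      u ∈ (φ (R, y n)).carrier)}
  obtain ⟨c, hcD⟩ := hB D (by
    intro n c
    by_cases h : ∃ u : P, ∃ R : NonemptyRay T, c ∈ R.1.carrier ∧ u ∈ (φ (R, z)).carrier ∧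
      u ∉ (φ (R, y n)).carrier
    · obtain ⟨u, R, h1, h2, h3⟩ := h
      obtain ⟨d, hcd, hd⟩ := href c _ (hO n u) ⟨R, ⟨h2, h3⟩, h1⟩
      exact ⟨d, Or.inl ⟨u, hd⟩, hcd⟩
    · push Not at h
      exact ⟨c, Or.inr h, le_refl c⟩) (by
    rintro n c hcn d hcd
    rcases hcn with ⟨u, hu⟩ | h
    · exact Or.inl ⟨u, fun R hR => hu R (R.1.down d hR c hcd)⟩
    · exact Or.inr fun u R hR => h u R (R.1.down d hR c hcd))
  -- convergence
  have hconv : ∀ (R : NonemptyRay T) (u : P), u ∈ (φ (R, z)).carrier →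
      ∀ᶠ n in atTop, u ∈ (φ (R, y n)).carrier := by
    intro R u hu
    have h1 : Tendsto (fun n => φ (R, y n)) atTop (𝓝 (φ (R, z))) := by
      have h2 : Continuous (fun w => φ (R, w)) := hc.comp (Continuous.prodMk_right R)
      exact (h2.tendsto z).comp hy
    exact h1.eventually ((isOpen_mem u).mem_nhds hu)
  by_cases hex : ∃ n, ∀ u : P, ∀ R : NonemptyRay T, c ∈ R.1.carrier →
      u ∈ (φ (R, z)).carrier → u ∈ (φ (R, y n)).carrier
  · -- Case 2
    obtain ⟨n, hn⟩ := hex
    obtain ⟨R1, _, _, hR1, _⟩ := htwo c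
    have hne1 : φ (R1, z) ≠ φ (R1, y n) := fun h => hne n (Prod.mk.inj (hi h)).2.symm
    obtain ⟨w, hw1, hw2⟩ : ∃ w, w ∈ (φ (R1, y n)).carrier ∧ w ∉ (φ (R1, z)).carrier := by
      by_contra hcon
      push Not at hcon
      exact hne1 (TreeRay.ext' fun x => ⟨fun h => hn x R1 hR1 h, fun h => hcon x h⟩)
    obtain ⟨d, hcd, hd⟩ := href c {R | w ∈ (φ (R, y n)).carrier ∧ w ∉ (φ (R, z)).carrier}
      ((hopen (y n) w).inter (hclosed z w)) ⟨R1, ⟨hw1, hw2⟩, hR1⟩
    -- all images lie below `w`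
    have hbelow : ∀ R : NonemptyRay T, d ∈ R.1.carrier → ∀ x ∈ (φ (R, z)).carrier, x < w := by
      intro R hR x hx
      have h1 := hn x R (R.1.down d hR c hcd) hx
      have h2 := hd R hR
      rcases (φ (R, y n)).chain.total h1 h2.1 with h | h
      · rcases eq_or_lt_of_le h with h | h
        · exact absurd (h ▸ hx) h2.2
        · exact h
      · exact absurd ((φ (R, z)).down x hx w h) h2.2
    -- a minimal image
    obtain ⟨Ra, Rb, hab, hda, hdb⟩ := htwo d
    let X : Set P := {x | x < w ∧ ∃ R : NonemptyRay T, d ∈ R.1.carrier ∧ x ∉ (φ (R, z)).carrier}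
    have hXne : X.Nonempty := by
      by_contra hX
      rw [not_nonempty_iff_eq_empty] at hX
      have hall : ∀ R : NonemptyRay T, d ∈ R.1.carrier → ∀ x, x < w →
          x ∈ (φ (R, z)).carrier := by
        intro R hR x hx
        by_contra hxn
        have : x ∈ X := ⟨hx, R, hR, hxn⟩
        rw [hX] at this
        exact this
      apply hab
      have : φ (Ra, z) = φ (Rb, z) := TreeRay.ext' fun x =>
        ⟨fun h => hall Rb hdb x (hbelow Ra hda x h), fun h => hall Ra hda x (hbelow Rb hdb x h)⟩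
      exact (Prod.mk.inj (hi this)).1
    obtain ⟨x, hxX, hxmin⟩ := hP.2 w X (fun x hx => hx.1.le) hXne
    obtain ⟨hxw, R0, hdR0, hxR0⟩ := hxX
    -- `R0` is the only ray through `d` whose image misses `x`
    have huniq : ∀ R : NonemptyRay T, d ∈ R.1.carrier → x ∉ (φ (R, z)).carrier →
        ∀ v, v ∈ (φ (R, z)).carrier ↔ v < x := by
      intro R hR hxR v
      constructor
      · intro hv
        have hvw := hbelow R hR v hv
        rcases comparable hP hvw.le hxw.le with h | h
        · exact lt_of_le_of_ne h (fun h' => hxR (h' ▸ hv))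
        · exact absurd ((φ (R, z)).down v hv x h) hxR
      · intro hv
        by_contra hvn
        exact absurd (hxmin v ⟨hv.trans hxw, R, hR, hvn⟩) (not_le_of_gt hv)
    obtain ⟨e, hde, he⟩ := href d {R | x ∉ (φ (R, z)).carrier} (hclosed z x) ⟨R0, hxR0, hdR0⟩
    obtain ⟨Re, Rf, hef, hee, hff⟩ := htwo e
    apply hef
    have : φ (Re, z) = φ (Rf, z) := TreeRay.ext' fun v =>
      (huniq Re (Re.1.down e hee d hde) (he Re hee) v).trans
        (huniq Rf (Rf.1.down e hff d hde) (he Rf hff) v).symm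
    exact (Prod.mk.inj (hi this)).1
  · -- Case 1
    push Not at hex
    have hall : ∀ n, ∃ u : P, ∀ R : NonemptyRay T, c ∈ R.1.carrier →
        u ∈ (φ (R, z)).carrier ∧ u ∉ (φ (R, y n)).carrier := by
      intro n
      rcases hcD n with h | h
      · exact h
      · obtain ⟨u, R, h1, h2, h3⟩ := hex n
        exact absurd (h u R h1 h2) h3
    choose u hu using hall
    obtain ⟨Ra, Rb, hab, hca, hcb⟩ := htwo c
    have hdesc : ∀ R : NonemptyRay T, c ∈ R.1.carrier →
        ∀ v, v ∈ (φ (R, z)).carrier ↔ ∃ n, v ≤ u n := by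
      intro R hR v
      constructor
      · intro hv
        obtain ⟨N, hN⟩ := eventually_atTop.1 (hconv R v hv)
        refine ⟨N, ?_⟩
        rcases (φ (R, z)).chain.total hv (hu N R hR).1 with h | h
        · exact h
        · exact absurd ((φ (R, y N)).down v (hN N le_rfl) (u N) h) (hu N R hR).2
      · rintro ⟨n, hn⟩
        exact (φ (R, z)).down (u n) (hu n R hR).1 v hn
    apply hab
    have : φ (Ra, z) = φ (Rb, z) := TreeRay.ext' fun v =>
      (hdesc Ra hca v).trans (hdesc Rb hcb v).symm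
    exact (Prod.mk.inj (hi this)).1

end X198PR
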