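import Pool.Agent.X198.PR.Core

open Set Filter Topology

namespace X198PR

universe u

/-- `a` is a limit point of `C` from below. -/
def Lim {Ω : Type u} [LinearOrder Ω] (C : Set Ω) (a : Ω) : Prop :=
  (∃ b, b < a) ∧ ∀ b < a, ∃ x ∈ C, b < x ∧ x < a

/-- Closed unbounded sets. -/
def Club {Ω : Type u} [LinearOrder Ω] (C : Set Ω) : Prop :=
  (∀ a, ∃ c ∈ C, a < c) ∧ ∀ a, Lim C a → a ∈ C

/-- Stationary sets. -/
def Stat {Ω : Type u} [LinearOrder Ω] (S : Set Ω) : Prop := ∀ C, Club C → ∃ a, a ∈ C ∧ a ∈ S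

section

variable {Ω : Type u} [LinearOrder Ω] [WellFoundedLT Ω]

theorem bdd (hunc : ¬ (univ : Set Ω).Countable) (hctb : ∀ a : Ω, (Iic a).Countable)
    {A : Set Ω} (hA : A.Countable) : ∃ b, ∀ a ∈ A, a < b := by
  by_contra h
  push Not at h
  apply hunc
  refine (hA.biUnion (fun a _ => hctb a)).mono ?_
  intro b _
  obtain ⟨a, ha, hba⟩ := h b
  exact mem_biUnion ha hba

/-- The supremum of a strictly increasing sequence. -/
theorem exists_sup (hunc : ¬ (univ : Set Ω).Countable) (hctb : ∀ a : Ω, (Iic a).Countable)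
    (x : ℕ → Ω) (hx : StrictMono x) :
    ∃ a, (∀ n, x n < a) ∧ ∀ b < a, ∃ n, b < x n := by
  obtain ⟨b, hb⟩ := bdd hunc hctb (countable_range x)
  have hne : {a | ∀ n, x n < a}.Nonempty := ⟨b, fun n => hb _ (mem_range_self n)⟩
  refine ⟨wellFounded_lt.min _ hne, wellFounded_lt.min_mem _ hne, ?_⟩
  intro b' hb'
  by_contra hcon
  push Not at hcon
  exact absurd hb' (not_lt_of_ge (wellFounded_lt.min_le
    (show b' ∈ {a | ∀ n, x n < a} from fun n => lt_of_lt_of_le (hx (Nat.lt_succ_self n))
      (hcon (n + 1)))))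

theorem club_iInter (hunc : ¬ (univ : Set Ω).Countable) (hctb : ∀ a : Ω, (Iic a).Countable)
    (C : ℕ → Set Ω) (hC : ∀ n, Club (C n)) : Club (⋂ n, C n) := by
  constructor
  · intro a
    choose g hg hg' using fun n => (hC n).1
    have hstep : ∀ x : Ω, ∃ y, x < y ∧ ∀ n, g n x < y := by
      intro x
      obtain ⟨b, hb⟩ := bdd hunc hctb (A := insert x (range fun n => g n x))
        ((countable_range _).insert x)
      exact ⟨b, hb x (mem_insert _ _), fun n => hb _ (mem_insert_of_mem _ (mem_range_self n))⟩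
    choose s hs hs' using hstep
    let x : ℕ → Ω := fun n => Nat.rec a (fun _ y => s y) n
    have hx1 : ∀ n, x (n + 1) = s (x n) := fun n => rfl
    have hmono : StrictMono x := strictMono_nat_of_lt_succ fun n => by
      rw [hx1]
      exact hs _
    obtain ⟨b, hb, hb'⟩ := exists_sup hunc hctb x hmono
    refine ⟨b, mem_iInter.2 fun n => (hC n).2 b ⟨⟨a, hb 0⟩, ?_⟩, hb 0⟩
    intro b' hb1
    obtain ⟨k, hk⟩ := hb' b' hb1
    refine ⟨g n (x k), hg n (x k), hk.trans (hg' n (x k)), ?_⟩
    have := hs' (x k) n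
    rw [← hx1] at this
    exact this.trans (hb (k + 1))
  · intro a ha
    refine mem_iInter.2 fun n => (hC n).2 a ⟨ha.1, fun b hb => ?_⟩
    obtain ⟨x, hx, h1⟩ := ha.2 b hb
    exact ⟨x, mem_iInter.1 hx n, h1⟩

theorem exists_bistat (hunc : ¬ (univ : Set Ω).Countable) (hctb : ∀ a : Ω, (Iic a).Countable)
    (f : Ω → ℕ → Bool) (hf : Function.Injective f) : ∃ S : Set Ω, Stat S ∧ Stat Sᶜ := by
  by_contra hcon
  push Not at hcon
  have h1 : ∀ n, ∃ C : Set Ω, Club C ∧ ∀ a ∈ C, ∀ b ∈ C, f a n = f b n := by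
    intro n
    by_cases hS : Stat {a | f a n = true}
    · have h2 := hcon _ hS
      unfold Stat at h2
      push Not at h2
      obtain ⟨C, hC, hC2⟩ := h2
      refine ⟨C, hC, fun a ha b hb => ?_⟩
      have ha' := hC2 a ha
      have hb' := hC2 b hb
      simp only [mem_compl_iff, mem_setOf_eq, not_not] at ha' hb'
      rw [ha', hb']
    · unfold Stat at hS
      push Not at hS
      obtain ⟨C, hC, hC2⟩ := hS
      refine ⟨C, hC, fun a ha b hb => ?_⟩
      have ha' := hC2 a ha
      have hb' := hC2 b hb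
      simp only [mem_setOf_eq, Bool.not_eq_true] at ha' hb'
      rw [ha', hb']
  choose C hC hC2 using h1
  have hclub := club_iInter hunc hctb C hC
  have hne : Nonempty Ω := by
    by_contra h
    rw [not_nonempty_iff] at h
    exact hunc (Set.to_countable _)
  obtain ⟨a0⟩ := hne
  obtain ⟨a, ha, _⟩ := hclub.1 a0
  obtain ⟨b, hb, hab⟩ := hclub.1 a
  apply hab.ne
  apply hf
  funext n
  exact hC2 n a (mem_iInter.1 ha n) b (mem_iInter.1 hb n)

end

/-- A copy of the Cantor set without any structure. -/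
structure Cpt : Type where
  val : ℕ → Bool

theorem Cpt.unc : ¬ Countable Cpt := by
  intro h
  have hinj : Function.Injective (fun f : ℕ → Bool => Cpt.mk f) := by
    intro f g hfg
    exact congrArg Cpt.val hfg
  have h1 : Countable (ℕ → Bool) := hinj.countable
  have h2 : Cardinal.mk (ℕ → Bool) ≤ Cardinal.aleph0 := Cardinal.mk_le_aleph0_iff.2 h1
  have h3 : Cardinal.aleph0 < Cardinal.mk (ℕ → Bool) := by
    simp only [Cardinal.mk_pi, Cardinal.mk_bool, Cardinal.prod_const, Cardinal.lift_ofNat,
      Cardinal.mk_nat, Cardinal.lift_aleph0]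
    exact Cardinal.cantor _
  exact absurd h2 (not_le_of_gt h3)

/-- There is an uncountable well-order with countable initial segments that injects into the
Cantor set. -/
theorem exists_omega1 : ∃ (Ω : Type) (_ : LinearOrder Ω) (_ : WellFoundedLT Ω)
    (f : Ω → ℕ → Bool), ¬ (univ : Set Ω).Countable ∧ (∀ a : Ω, (Iic a).Countable) ∧
      Function.Injective f := by
  classical
  letI lo : LinearOrder Cpt := linearOrderOfSTO (WellOrderingRel (α := Cpt))
  have hwf : WellFoundedLT Cpt := ⟨(inferInstance : IsWellFounded Cpt WellOrderingRel).wf⟩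
  let Ω := {x : Cpt // (Iio x).Countable}
  refine ⟨Ω, inferInstance, ⟨InvImage.wf Subtype.val hwf.wf⟩, fun x => x.1.val, ?_, ?_, ?_⟩
  · intro hcount
    have h1 : ({x : Cpt | (Iio x).Countable} : Set Cpt).Countable := by
      have := hcount.image (Subtype.val : Ω → Cpt)
      refine this.mono ?_
      intro x hx
      exact ⟨⟨x, hx⟩, mem_univ _, rfl⟩
    by_cases hall : ∀ x : Cpt, (Iio x).Countable
    · apply Cpt.unc
      rw [← Set.countable_univ_iff]
      exact h1.mono fun x _ => hall x
    · push Not at hall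
      obtain ⟨m, hm, hmin⟩ := hwf.wf.has_min {x : Cpt | ¬ (Iio x).Countable} hall
      apply hm
      refine h1.mono ?_
      intro y hy
      by_contra hyn
      exact hmin y hyn hy
  · intro a
    have h1 : (Iio a.1).Countable := a.2
    have h2 : (insert a.1 (Iio a.1)).Countable := h1.insert _
    have h3 : ((Subtype.val : Ω → Cpt) ⁻¹' (insert a.1 (Iio a.1))).Countable :=
      h2.preimage Subtype.val_injective
    refine h3.mono ?_
    intro b hb
    rcases eq_or_lt_of_le (show b ≤ a from hb) with h | h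
    · left
      rw [h]
    · right
      exact h
  · intro a b hab
    apply Subtype.ext
    have h1 : a.1.val = b.1.val := hab
    cases ha : a.1
    cases hb : b.1
    rw [ha, hb] at h1
    simpa using h1

end X198PR
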